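import Pool.Agent.H703R3.PenroseB

/-!
# MP_67b65f_an: for a suitable smooth domain the fronts from an open set of points never become dense

The definitions used by the statement (`Euc`, `IsDefFun`, `IsSmoothDomain`, `IsOuterNormal`,
`Photon`, `front`, `FrontsBecomeDense`) are in `Pool/Agent/H800R2/Front.lean` (starting files).

The domain is a room in the manner of Penrose: its upper half is the half ellipse
`x² / 2 + y² < 1`, `y > 0`, with foci `(± 1, 0)`; below the major axis two walls with tops around the
foci separate a central part from two pockets. Light from the central part enters the upper half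
between the foci and leaves it between the foci, so it never reaches the pockets.
-/

set_option autoImplicit false

namespace Pool.Agent.Results.MP_67b65f_an.DarkPockets

open Pool.Agent.H800R2

/-- There are a bounded domain `Ω` in the plane with smooth boundary, an open set `A ⊆ Ω` of positive
measure and a nonempty open set `D ⊆ Ω` such that for each `P ∈ A` no front from `P` meets `D`, at
any time; in particular the fronts from `P` do not become dense. -/
theorem result : ∃ Ω : Set (Euc 2), IsSmoothDomain Ω ∧ ∃ A D : Set (Euc 2),
    IsOpen A ∧ A ⊆ Ω ∧ 0 < MeasureTheory.volume A ∧ IsOpen D ∧ D ⊆ Ω ∧ D.Nonempty ∧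
    ∀ P ∈ A, (∀ t : ℝ, Disjoint (front Ω P t) D) ∧ ¬ FrontsBecomeDense Ω P :=
  Pool.Agent.H703R3.Penrose.main

end Pool.Agent.Results.MP_67b65f_an.DarkPockets
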